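import Pool.Agent.H.MP_df8ac3_lc.B

set_option autoImplicit false

namespace Pool.Agent.Results.MP_df8ac3_lc.Complete
open Filter Topology

def UD (x : ℕ → ℝ) : Prop :=
  ∀ u v : ℝ, 0 ≤ u → u < v → v ≤ 1 →
    Tendsto (fun N : ℕ => (((Finset.range N).filter fun n =>
      u ≤ Int.fract (x n) ∧ Int.fract (x n) < v).card : ℝ) / (N : ℝ)) atTop (𝓝 (v - u))

def NN (a k : ℕ) : Set (EuclideanSpace ℝ (Fin (k + 1))) :=
  {g | UD fun n => (∑ i : Fin (k + 1), g i * (n : ℝ) ^ (i : ℕ)) * (a : ℝ) ^ n}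

def Pi03 {X : Type} [TopologicalSpace X] (A : Set X) : Prop :=
  ∃ F : ℕ → ℕ → Set X, (∀ i j, IsClosed (F i j)) ∧ A = ⋂ i, ⋃ j, F i j

def D2 {X : Type} [TopologicalSpace X] (D : Set X) : Prop :=
  ∃ A B : Set X, Pi03 A ∧ Pi03 B ∧ D = A \ B

theorem ud_iff (x : ℕ → ℝ) : UD x ↔ Pool.Agent.H.MP_0447a2_lc.UD x := by
  refine ⟨fun h u v h0 h1 h2 => ?_, fun h u v h0 h1 h2 => h u v h0 h1.le h2⟩
  rcases h1.lt_or_eq with h1 | rfl
  · exact h u v h0 h1 h2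
  · have : ∀ n, ¬ (u ≤ Int.fract (x n) ∧ Int.fract (x n) < u) := fun n h => by linarith [h.1, h.2]
    simp [this]

theorem pi (a k : ℕ) : Pi03 (NN a k) := by
  simp only [NN, ud_iff]
  exact Pool.Agent.H.MP_0447a2_lc.ud_pi3
    (fun (g : EuclideanSpace ℝ (Fin (k + 1))) n =>
      (∑ i : Fin (k + 1), g i * (n : ℝ) ^ (i : ℕ)) * (a : ℝ) ^ n) fun n => by fun_prop

theorem result (a b : ℕ) (ha : 1 < a) (hb : 1 < b)
    (hab : ∀ m n : ℕ, 0 < m → 0 < n → a ^ m ≠ b ^ n) (k : ℕ) :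
    D2 (NN a k \ NN b k) ∧ ¬ D2 (NN a k \ NN b k)ᶜ := by
  refine ⟨⟨_, _, pi a k, pi b k, rfl⟩, ?_⟩
  rintro ⟨_, _, ⟨F1, h1, rfl⟩, ⟨F2, h2, rfl⟩, h⟩
  obtain ⟨G, hG, hd⟩ := Pool.Agent.H.MP_0447a2_lc.diag
  obtain ⟨f, f1, f2⟩ := Pool.Agent.H.MP_df8ac3_lc.both ha hb hab G hG
  let φ : (ℕ → ℕ) → EuclideanSpace ℝ (Fin (k + 1)) := fun y => f y • EuclideanSpace.single 0 1
  have hφ : Continuous φ := f1.smul continuous_const
  have e : ∀ y (n : ℕ), ∑ i : Fin (k + 1), φ y i * (n : ℝ) ^ (i : ℕ) = f y := fun y n => by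
    rw [Finset.sum_eq_single 0 (fun i _ hi => by simp [φ, hi]) (by simp)]
    simp [φ]
  refine hd (fun c i j => φ ⁻¹' (if c = true then F1 else F2) i j)
    (fun c i j => IsClosed.preimage hφ (by cases c <;> simp [h1, h2])) (Set.ext fun y => ?_)
  have := Set.ext_iff.mp h (φ y)
  simp only [Set.mem_compl_iff, Set.mem_diff, NN, Set.mem_setOf_eq, ud_iff, e] at this
  rw [Set.mem_compl_iff, f2, this]
  simp

end Pool.Agent.Results.MP_df8ac3_lc.Complete
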